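import Pool.Agent.W78.EG.Defs
import Pool.Agent.W681.EC.FIN1

/-! Project EG, part FINX: logarithmic means over the pairs (port of `Pool.Agent.W935.EX.Finx`). -/

set_option autoImplicit false

namespace Pool.Agent.W377.EG

open Finset Filter
open Pool.Agent.W78.GA
open Pool.Agent.W78.EG
open Pool.Agent.W681.EC (cnt_sum sum_inv_le sum_inv_sq_le W_bound)

variable {t c : ℤ}

theorem uc_pos (hD : t ^ 2 < 4 * c) : 1 ≤ uc t c := by
  unfold uc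
  rw [Nat.one_le_iff_ne_zero, ← Nat.pos_iff_ne_zero, Finset.card_pos]
  refine ⟨1, (mem_ball hD).2 ?_⟩
  rw [nm_one]
  exact ⟨le_rfl, by norm_num⟩

open scoped Classical in
theorem mem_SP (N : ℕ) (p : ℕ × ℕ) : p ∈ SP t c N ↔ ((1 ≤ p.1 ∧ p.1 ≤ N) ∧ (1 ≤ p.2 ∧ p.2 ≤ N)) ∧
    ∃ n : ℕ, 0 < 2 * (n : ℤ) + t ∧ (p.1 * p.2 : ℤ) = (n : ℤ) ^ 2 + t * n + c := by
  unfold SP
  rw [mem_filter, mem_product, mem_Icc, mem_Icc]

open scoped Classical in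
theorem card1 (C : ℝ) (hC : ∀ m M : ℕ, 1 ≤ m → m ≤ M →
    ((((Icc 1 m) ×ˢ (Icc 1 M)).filter (fun p => ∃ n : ℕ, 0 < 2 * (n : ℤ) + t ∧ (p.1 * p.2 : ℤ) = (n : ℤ) ^ 2 + t * n + c)).card : ℝ) ≤
    C * Real.sqrt (m * M)) (N X : ℕ) (hX : 1 ≤ X) :
    (((SP t c N).filter (fun p => max p.1 p.2 ≤ X)).card : ℝ) ≤ C * X := by
  have h := hC X X hX le_rfl
  rw [Real.sqrt_mul_self (by positivity)] at h
  refine le_trans ?_ h
  have : ((SP t c N).filter (fun p => max p.1 p.2 ≤ X)) ⊆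
      ((Icc 1 X) ×ˢ (Icc 1 X)).filter (fun p => ∃ n : ℕ, 0 < 2 * (n : ℤ) + t ∧ (p.1 * p.2 : ℤ) = (n : ℤ) ^ 2 + t * n + c) := by
    intro p hp
    rw [mem_filter, mem_SP, max_le_iff] at hp
    rw [mem_filter, mem_product, mem_Icc, mem_Icc]
    exact ⟨⟨⟨hp.1.1.1.1, hp.2.1⟩, ⟨hp.1.1.2.1, hp.2.2⟩⟩, hp.1.2⟩
  exact_mod_cast card_le_card this

open scoped Classical in
theorem card2 (C : ℝ) (hC : ∀ m M : ℕ, 1 ≤ m → m ≤ M →
    ((((Icc 1 m) ×ˢ (Icc 1 M)).filter (fun p => ∃ n : ℕ, 0 < 2 * (n : ℤ) + t ∧ (p.1 * p.2 : ℤ) = (n : ℤ) ^ 2 + t * n + c)).card : ℝ) ≤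
    C * Real.sqrt (m * M)) (hC0 : 0 ≤ C) (θ : ℝ) (hθ0 : 0 < θ) (hθ1 : θ ≤ 1) (N X : ℕ)
    (hX : 1 ≤ X) :
    ((((SP t c N).filter (fun p => ((min p.1 p.2 : ℕ) : ℝ) ≤ θ * (max p.1 p.2 : ℕ))).filter
      (fun p => max p.1 p.2 ≤ X)).card : ℝ) ≤ 2 * C * Real.sqrt θ * X := by
  have hXp : (0 : ℝ) < X := by exact_mod_cast hX
  set m := ⌊θ * X⌋₊ with hm
  have hle : (m : ℝ) ≤ θ * X := Nat.floor_le (by positivity)
  by_cases hm0 : 1 ≤ m
  · have hmX : m ≤ X := by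
      have : (m : ℝ) ≤ X := le_trans hle (by nlinarith)
      exact_mod_cast this
    have h := hC m X hm0 hmX
    set A := ((Icc 1 m) ×ˢ (Icc 1 X)).filter (fun p : ℕ × ℕ => ∃ n : ℕ, 0 < 2 * (n : ℤ) + t ∧ (p.1 * p.2 : ℤ) = (n : ℤ) ^ 2 + t * n + c)
      with hA
    have h1 : (((SP t c N).filter (fun p => ((min p.1 p.2 : ℕ) : ℝ) ≤ θ * (max p.1 p.2 : ℕ))).filter
      (fun p => max p.1 p.2 ≤ X)) ⊆ A ∪ A.image Prod.swap := by
      intro p hp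
      rw [mem_filter, mem_filter, mem_SP] at hp
      obtain ⟨⟨⟨⟨⟨h1, h2⟩, ⟨h3, h4⟩⟩, h5⟩, h6⟩, h7⟩ := hp
      have h8 : ((min p.1 p.2 : ℕ) : ℝ) ≤ θ * X := by
        refine le_trans h6 (mul_le_mul_of_nonneg_left ?_ hθ0.le)
        exact_mod_cast h7
      have h9 : min p.1 p.2 ≤ m := Nat.le_floor h8
      rw [mem_union]
      rcases le_total p.1 p.2 with h10 | h10
      · left
        rw [min_eq_left h10] at h9
        rw [max_eq_right h10] at h7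
        rw [hA, mem_filter, mem_product, mem_Icc, mem_Icc]
        exact ⟨⟨⟨h1, h9⟩, ⟨h3, h7⟩⟩, h5⟩
      · right
        rw [min_eq_right h10] at h9
        rw [max_eq_left h10] at h7
        rw [mem_image]
        refine ⟨(p.2, p.1), ?_, rfl⟩
        rw [hA, mem_filter, mem_product, mem_Icc, mem_Icc]
        refine ⟨⟨⟨h3, h9⟩, ⟨h1, h7⟩⟩, ?_⟩
        obtain ⟨n, hn0, hn⟩ := h5
        exact ⟨n, hn0, by rw [← hn]; ring⟩
    have h2 : ((((SP t c N).filter (fun p => ((min p.1 p.2 : ℕ) : ℝ) ≤ θ * (max p.1 p.2 : ℕ))).filter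
      (fun p => max p.1 p.2 ≤ X)).card : ℝ) ≤ (A.card : ℝ) + A.card := by
      have h3 := card_le_card h1
      have h4 := card_union_le A (A.image Prod.swap)
      have h5 : (A.image Prod.swap).card ≤ A.card := card_image_le
      have : (((SP t c N).filter (fun p => ((min p.1 p.2 : ℕ) : ℝ) ≤ θ * (max p.1 p.2 : ℕ))).filter
        (fun p => max p.1 p.2 ≤ X)).card ≤ A.card + A.card := by omega
      exact_mod_cast this
    have h3 : Real.sqrt (m * X) ≤ Real.sqrt θ * X := by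
      have : (m : ℝ) * X ≤ θ * ((X : ℝ) * X) := by nlinarith
      calc Real.sqrt (m * X) ≤ Real.sqrt (θ * ((X : ℝ) * X)) := Real.sqrt_le_sqrt this
        _ = Real.sqrt θ * X := by
          rw [Real.sqrt_mul hθ0.le, Real.sqrt_mul_self hXp.le]
    have h4 : C * Real.sqrt (m * X) ≤ C * (Real.sqrt θ * X) :=
      mul_le_mul_of_nonneg_left h3 hC0
    calc _ ≤ (A.card : ℝ) + A.card := h2
      _ ≤ C * (Real.sqrt θ * X) + C * (Real.sqrt θ * X) := by linarith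
      _ = _ := by ring
  · have h1 : (((SP t c N).filter (fun p => ((min p.1 p.2 : ℕ) : ℝ) ≤ θ * (max p.1 p.2 : ℕ))).filter
      (fun p => max p.1 p.2 ≤ X)) = ∅ := by
      rw [Finset.eq_empty_iff_forall_notMem]
      intro p hp
      rw [mem_filter, mem_filter, mem_SP] at hp
      obtain ⟨⟨⟨⟨⟨h1, h2⟩, ⟨h3, h4⟩⟩, h5⟩, h6⟩, h7⟩ := hp
      have h8 : ((min p.1 p.2 : ℕ) : ℝ) ≤ θ * X := by
        refine le_trans h6 (mul_le_mul_of_nonneg_left ?_ hθ0.le)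
        exact_mod_cast h7
      have h9 : min p.1 p.2 ≤ m := Nat.le_floor h8
      have h10 : 1 ≤ min p.1 p.2 := le_min h1 h3
      omega
    rw [h1, card_empty, Nat.cast_zero]
    positivity

open scoped Classical in
/-- the real version of `AG` -/
noncomputable def AR (t c : ℤ) (D : ℕ → ℕ → ℝ) (s : ℝ) (X : ℝ) : ℝ :=
  ∑ e ∈ (dedge t c X).filter (fun e => 0 < pp e.1 e.2 ∧ s * X < (nm e.1 : ℝ) ∧
    (nm e.1 : ℝ) ≤ 1 * X ∧ s * X < (nm e.2 : ℝ) ∧ (nm e.2 : ℝ) ≤ 1 * X), D (nm e.1) (nm e.2)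

open scoped Classical in
theorem AA_eq (hD : t ^ 2 < 4 * c) (h2 : S_CORR t c) (D : ℕ → ℕ → ℝ) (s : ℝ) (X : ℕ) (hX : 1 ≤ X) :
    AR t c D s X = uc t c * ∑ p ∈ SP t c X,
      if s * X < p.1 ∧ s * X < p.2 then D p.1 p.2 else 0 := by
  have h := h2 X (fun a b => if s * X < a ∧ s * X < b then D a b else 0)
    (by exact_mod_cast hX)
  rw [Nat.floor_natCast] at h
  rw [← h]
  unfold AR
  simp only [Finset.sum_filter]
  apply sum_congr rfl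
  intro e he
  unfold dedge at he
  rw [mem_filter, mem_product, mem_pball hD, mem_pball hD] at he
  have e1 : (nm e.1 : ℝ) ≤ 1 * (X : ℝ) := by rw [one_mul]; exact he.1.1.2
  have e2 : (nm e.2 : ℝ) ≤ 1 * (X : ℝ) := by rw [one_mul]; exact he.1.2.2
  by_cases c1 : 0 < pp e.1 e.2
  · by_cases c2 : s * X < nm e.1 ∧ s * X < nm e.2
    · rw [if_pos ⟨c1, c2.1, e1, c2.2, e2⟩, if_pos c1, if_pos c2]
    · rw [if_neg (fun h3 => c2 ⟨h3.2.1, h3.2.2.2.1⟩), if_pos c1, if_neg c2]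
  · rw [if_neg (fun h3 => c1 h3.1), if_neg c1]

open scoped Classical in
theorem main_eq (hD : t ^ 2 < 4 * c) (h2 : S_CORR t c) (D : ℕ → ℕ → ℝ) (s : ℝ) (N : ℕ) :
    ∑ X ∈ Icc 1 N, 1 / (X : ℝ) ^ 2 * AR t c D s X =
      uc t c * ∑ p ∈ SP t c N, D p.1 p.2 *
        ∑ X ∈ Icc 1 N, if (p.1 ≤ X ∧ p.2 ≤ X) ∧ (s * X < p.1 ∧ s * X < p.2) then
          1 / (X : ℝ) ^ 2 else 0 := by
  have h1 : ∀ X ∈ Icc 1 N, 1 / (X : ℝ) ^ 2 * AR t c D s X =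
      uc t c * ∑ p ∈ SP t c N, D p.1 p.2 *
        if (p.1 ≤ X ∧ p.2 ≤ X) ∧ (s * X < p.1 ∧ s * X < p.2) then 1 / (X : ℝ) ^ 2 else 0 := by
    intro X hX
    rw [mem_Icc] at hX
    rw [AA_eq hD h2 D s X hX.1]
    have e1 : SP t c X = (SP t c N).filter (fun p => p.1 ≤ X ∧ p.2 ≤ X) := by
      ext p
      simp only [mem_filter, mem_SP]
      constructor
      · rintro ⟨⟨⟨h3, h4⟩, ⟨h5, h6⟩⟩, h7⟩
        exact ⟨⟨⟨⟨h3, h4.trans hX.2⟩, ⟨h5, h6.trans hX.2⟩⟩, h7⟩, h4, h6⟩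
      · rintro ⟨⟨⟨⟨h3, h4⟩, ⟨h5, h6⟩⟩, h7⟩, h9, h10⟩
        exact ⟨⟨⟨h3, h9⟩, ⟨h5, h10⟩⟩, h7⟩
    rw [e1, Finset.sum_filter, mul_left_comm, Finset.mul_sum]
    congr 1
    apply sum_congr rfl
    intro p _
    by_cases c1 : p.1 ≤ X ∧ p.2 ≤ X
    · by_cases c2 : s * X < p.1 ∧ s * X < p.2
      · rw [if_pos c1, if_pos c2, if_pos ⟨c1, c2⟩]
        ring
      · rw [if_pos c1, if_neg c2, if_neg (fun h => c2 h.2)]
        ring
    · rw [if_neg c1, if_neg (fun h => c1 h.1)]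
      ring
  rw [sum_congr rfl h1, ← Finset.mul_sum, Finset.sum_comm]
  congr 1
  apply sum_congr rfl
  intro p _
  rw [Finset.mul_sum]

open scoped Classical in
theorem key (hD : t ^ 2 < 4 * c) (h2 : S_CORR t c) (C : ℝ) (hC : ∀ m M : ℕ, 1 ≤ m → m ≤ M →
    ((((Icc 1 m) ×ˢ (Icc 1 M)).filter (fun p => ∃ n : ℕ, 0 < 2 * (n : ℤ) + t ∧ (p.1 * p.2 : ℤ) = (n : ℤ) ^ 2 + t * n + c)).card : ℝ) ≤
    C * Real.sqrt (m * M)) (hC0 : 0 ≤ C) (τ : ℝ) (ht0 : 0 < τ) (ht1 : τ ≤ 1) (D : ℕ → ℕ → ℝ)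
    (hD1 : ∀ a b, |D a b| ≤ 1) (N : ℕ)
    (hN : 1 ≤ N) :
    |∑ p ∈ SP t c N, D p.1 p.2 * (1 / ((max p.1 p.2 : ℕ) : ℝ))| ≤
      |∑ X ∈ Icc 1 N, 1 / (X : ℝ) ^ 2 * AR t c D (τ ^ 4) X| +
      (1 + 3 * C + 6 * C * τ * (1 + Real.log N)) := by
  have hNp : (0 : ℝ) < N := by exact_mod_cast hN
  have hθ0 : 0 < τ ^ 2 := by positivity
  have hθ1 : τ ^ 2 ≤ 1 := pow_le_one₀ ht0.le ht1
  have hsθ : τ ^ 4 ≤ τ ^ 2 := pow_le_pow_of_le_one ht0.le ht1 (by norm_num)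
  set W : ℕ × ℕ → ℝ := fun p => ∑ X ∈ Icc 1 N,
    if (p.1 ≤ X ∧ p.2 ≤ X) ∧ (τ ^ 4 * X < p.1 ∧ τ ^ 4 * X < p.2) then
      1 / (X : ℝ) ^ 2 else 0 with hW
  set E : ℕ × ℕ → ℝ := fun p => 1 / ((max p.1 p.2 : ℕ) : ℝ) ^ 2 + 1 / (N : ℝ) +
      (if ((min p.1 p.2 : ℕ) : ℝ) ≤ τ ^ 2 * (max p.1 p.2 : ℕ) then
        2 * (1 / ((max p.1 p.2 : ℕ) : ℝ))
        else 2 * (τ ^ 4 / τ ^ 2) * (1 / ((max p.1 p.2 : ℕ) : ℝ))) with hE
  have hEn : ∀ p, 0 ≤ E p := by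
    intro p
    rw [hE]
    have : 0 ≤ (if ((min p.1 p.2 : ℕ) : ℝ) ≤ τ ^ 2 * (max p.1 p.2 : ℕ) then
        2 * (1 / ((max p.1 p.2 : ℕ) : ℝ))
        else 2 * (τ ^ 4 / τ ^ 2) * (1 / ((max p.1 p.2 : ℕ) : ℝ))) := by
      split_ifs <;> positivity
    positivity
  have hWE : ∀ p ∈ SP t c N, |W p - 1 / ((max p.1 p.2 : ℕ) : ℝ)| ≤ E p := by
    intro p hp
    rw [mem_SP] at hp
    exact W_bound (τ ^ 4) (τ ^ 2) (by positivity) hsθ N p.1 p.2 hp.1.1.1 hp.1.1.2 hp.1.2.2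
  -- the sum of the errors
  have hM : ∀ p ∈ SP t c N, 1 ≤ max p.1 p.2 ∧ max p.1 p.2 ≤ N := by
    intro p hp
    rw [mem_SP] at hp
    exact ⟨le_trans hp.1.1.1 (le_max_left _ _), max_le hp.1.1.2 hp.1.2.2⟩
  have a1 : ∀ n : ℕ, 1 ≤ n → 1 / ((n + 1 : ℕ) : ℝ) ≤ 1 / (n : ℝ) := by
    intro n hn
    have : (0 : ℝ) < n := by exact_mod_cast hn
    push_cast
    exact one_div_le_one_div_of_le this (by linarith)
  have a2 : ∀ n : ℕ, 1 ≤ n → 1 / ((n + 1 : ℕ) : ℝ) ^ 2 ≤ 1 / (n : ℝ) ^ 2 := by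
    intro n hn
    have : (0 : ℝ) < n := by exact_mod_cast hn
    push_cast
    exact one_div_le_one_div_of_le (by positivity) (by nlinarith)
  have s1 : ∑ p ∈ SP t c N, 1 / ((max p.1 p.2 : ℕ) : ℝ) ^ 2 ≤ C * 2 := by
    refine le_trans (cnt_sum (SP t c N) (fun p => max p.1 p.2) (fun n => 1 / (n : ℝ) ^ 2) C N hN a2
      (fun n _ => by positivity) hM (fun X hX => card1 C hC N X hX)) ?_
    exact mul_le_mul_of_nonneg_left (sum_inv_sq_le N) hC0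
  have s2 : ∑ p ∈ SP t c N, 1 / ((max p.1 p.2 : ℕ) : ℝ) ≤ C * (1 + Real.log N) := by
    refine le_trans (cnt_sum (SP t c N) (fun p => max p.1 p.2) (fun n => 1 / (n : ℝ)) C N hN a1
      (fun n _ => by positivity) hM (fun X hX => card1 C hC N X hX)) ?_
    exact mul_le_mul_of_nonneg_left (sum_inv_le N) hC0
  have s3 : ∑ p ∈ (SP t c N).filter (fun p => ((min p.1 p.2 : ℕ) : ℝ) ≤ τ ^ 2 * (max p.1 p.2 : ℕ)),
      1 / ((max p.1 p.2 : ℕ) : ℝ) ≤ 2 * C * τ * (1 + Real.log N) := by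
    have hc3 : ∀ X : ℕ, 1 ≤ X → ((((SP t c N).filter (fun p => ((min p.1 p.2 : ℕ) : ℝ) ≤
        τ ^ 2 * (max p.1 p.2 : ℕ))).filter (fun p => max p.1 p.2 ≤ X)).card : ℝ) ≤
        2 * C * τ * X := by
      intro X hX
      have h4 := card2 C hC hC0 (τ ^ 2) hθ0 hθ1 N X hX
      rw [Real.sqrt_sq ht0.le] at h4
      exact h4
    have hM3 : ∀ p ∈ (SP t c N).filter (fun p => ((min p.1 p.2 : ℕ) : ℝ) ≤
        τ ^ 2 * (max p.1 p.2 : ℕ)), 1 ≤ max p.1 p.2 ∧ max p.1 p.2 ≤ N :=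
      fun p hp => hM p (mem_filter.1 hp).1
    have h5 := cnt_sum ((SP t c N).filter (fun p => ((min p.1 p.2 : ℕ) : ℝ) ≤
      τ ^ 2 * (max p.1 p.2 : ℕ))) (fun p : ℕ × ℕ => max p.1 p.2) (fun n => 1 / (n : ℝ))
      (2 * C * τ) N hN a1 (fun n _ => by positivity) hM3 hc3
    have h6 : 2 * C * τ * ∑ X ∈ Icc 1 N, 1 / (X : ℝ) ≤ 2 * C * τ * (1 + Real.log N) :=
      mul_le_mul_of_nonneg_left (sum_inv_le N) (by positivity)
    exact le_trans h5 h6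
  have s4 : ∑ p ∈ SP t c N, 1 / (N : ℝ) ≤ C := by
    rw [Finset.sum_const, nsmul_eq_mul]
    have h3 := card1 C hC N N hN
    have e : (SP t c N).filter (fun p => max p.1 p.2 ≤ N) = SP t c N := by
      rw [Finset.filter_eq_self]
      exact fun p hp => (hM p hp).2
    rw [e] at h3
    rw [mul_one_div, div_le_iff₀ hNp]
    exact h3
  have hq : τ ^ 4 / τ ^ 2 = τ ^ 2 := by
    field_simp
  have s5 : ∑ p ∈ SP t c N, (if ((min p.1 p.2 : ℕ) : ℝ) ≤ τ ^ 2 * (max p.1 p.2 : ℕ) then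
        2 * (1 / ((max p.1 p.2 : ℕ) : ℝ))
        else 2 * (τ ^ 4 / τ ^ 2) * (1 / ((max p.1 p.2 : ℕ) : ℝ))) ≤
      2 * (2 * C * τ * (1 + Real.log N)) + 2 * τ ^ 2 * (C * (1 + Real.log N)) := by
    have e1 : ∀ p ∈ SP t c N, (if ((min p.1 p.2 : ℕ) : ℝ) ≤ τ ^ 2 * (max p.1 p.2 : ℕ) then
        2 * (1 / ((max p.1 p.2 : ℕ) : ℝ))
        else 2 * (τ ^ 4 / τ ^ 2) * (1 / ((max p.1 p.2 : ℕ) : ℝ))) ≤
        2 * (if ((min p.1 p.2 : ℕ) : ℝ) ≤ τ ^ 2 * (max p.1 p.2 : ℕ) then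
          1 / ((max p.1 p.2 : ℕ) : ℝ) else 0) + 2 * τ ^ 2 * (1 / ((max p.1 p.2 : ℕ) : ℝ)) := by
      intro p _
      rw [hq]
      have : 0 ≤ 2 * τ ^ 2 * (1 / ((max p.1 p.2 : ℕ) : ℝ)) := by positivity
      split_ifs
      · linarith
      · linarith
    refine le_trans (Finset.sum_le_sum e1) ?_
    rw [Finset.sum_add_distrib, ← Finset.mul_sum, ← Finset.mul_sum, ← Finset.sum_filter]
    have : 2 * τ ^ 2 * ∑ p ∈ SP t c N, 1 / ((max p.1 p.2 : ℕ) : ℝ) ≤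
        2 * τ ^ 2 * (C * (1 + Real.log N)) := mul_le_mul_of_nonneg_left s2 (by positivity)
    linarith
  have hlog : 0 ≤ Real.log N := Real.log_nonneg (by exact_mod_cast hN)
  have s6 : ∑ p ∈ SP t c N, E p ≤ 3 * C + 6 * C * τ * (1 + Real.log N) := by
    rw [hE, Finset.sum_add_distrib, Finset.sum_add_distrib]
    have h3 : τ ^ 2 ≤ τ := by nlinarith
    have h4 : 2 * τ ^ 2 * (C * (1 + Real.log N)) ≤ 2 * τ * (C * (1 + Real.log N)) := by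
      apply mul_le_mul_of_nonneg_right (by linarith)
      positivity
    linarith
  -- the comparison
  have b1 : ∑ X ∈ Icc 1 N, 1 / (X : ℝ) ^ 2 * AR t c D (τ ^ 4) X =
      uc t c * ∑ p ∈ SP t c N, D p.1 p.2 * W p := main_eq hD h2 D (τ ^ 4) N
  have b2 : |∑ p ∈ SP t c N, D p.1 p.2 * (1 / ((max p.1 p.2 : ℕ) : ℝ)) -
      ∑ p ∈ SP t c N, D p.1 p.2 * W p| ≤ ∑ p ∈ SP t c N, E p := by
    rw [← Finset.sum_sub_distrib]
    refine le_trans (Finset.abs_sum_le_sum_abs _ _) ?_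
    apply Finset.sum_le_sum
    intro p hp
    rw [← mul_sub, abs_mul, abs_sub_comm]
    exact (mul_le_of_le_one_left (abs_nonneg _) (hD1 _ _)).trans (hWE p hp)
  have b4 : |∑ p ∈ SP t c N, D p.1 p.2 * W p| ≤
      |∑ X ∈ Icc 1 N, 1 / (X : ℝ) ^ 2 * AR t c D (τ ^ 4) X| := by
    have hu : (1 : ℝ) ≤ uc t c := by exact_mod_cast uc_pos hD
    have hu' : |(uc t c : ℝ)| = uc t c := abs_of_nonneg (by linarith)
    rw [b1, abs_mul, hu']
    exact le_mul_of_one_le_left (abs_nonneg _) hu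
  have b5 := abs_le.1 b2
  rw [abs_le]
  have b7 := neg_abs_le (∑ p ∈ SP t c N, D p.1 p.2 * W p)
  have b8 := le_abs_self (∑ p ∈ SP t c N, D p.1 p.2 * W p)
  constructor
  · linarith [b5.1, b5.2]
  · linarith [b5.1, b5.2]

theorem AG_re (F : ℕ → ℕ → ℂ) (s X : ℝ) :
    (AG (fun e : Qd t c × Qd t c => F (nm e.1) (nm e.2)) s 1 s 1 X).re =
      AR t c (fun a b => (F a b).re) s X := by
  unfold AG AR
  rw [Complex.re_sum]

theorem AG_im (F : ℕ → ℕ → ℂ) (s X : ℝ) :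
    (AG (fun e : Qd t c × Qd t c => F (nm e.1) (nm e.2)) s 1 s 1 X).im =
      AR t c (fun a b => (F a b).im) s X := by
  unfold AG AR
  rw [Complex.im_sum]

theorem finx {f : ℕ} {χ : DirichletCharacter ℂ f} (hF : Fd t c f χ) (h2 : S_CORR t c)
    (h3 : S_SCNT t c) : S_FINX t c := by
  have hD : t ^ 2 < 4 * c := by
    have h1 := hF.disc
    have h4 := hF.three
    omega
  intro F hFb hyp
  obtain ⟨C, hC⟩ := h3
  have hC0 : 0 ≤ C := by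
    have h := hC 1 1 le_rfl le_rfl
    have h4 : (0 : ℝ) ≤ C * Real.sqrt ((1 : ℕ) * (1 : ℕ)) := le_trans (Nat.cast_nonneg _) h
    simpa using h4
  rw [Metric.tendsto_atTop]
  intro ε hε
  set τ : ℝ := min (1 / 2) (ε / (48 * (C + 1))) with ht
  have ht0 : 0 < τ := lt_min (by norm_num) (by positivity)
  have hlt : τ < 1 := lt_of_le_of_lt (min_le_left _ _) (by norm_num)
  have ht1 : τ ≤ 1 := hlt.le
  have ht2 : 12 * C * τ ≤ ε / 4 := by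
    have h5 : τ ≤ ε / (48 * (C + 1)) := min_le_right _ _
    rw [le_div_iff₀ (by positivity)] at h5
    nlinarith
  obtain ⟨N₀, hN₀⟩ := hyp (τ ^ 4) (by positivity) (pow_lt_one₀ ht0.le hlt (by norm_num)) (ε / 4) (by positivity)
  have hlim : Tendsto (fun N : ℕ => Real.log N) atTop atTop :=
    Real.tendsto_log_atTop.comp tendsto_natCast_atTop_atTop
  obtain ⟨N₁, hN₁⟩ := (hlim.eventually_gt_atTop
    ((1 + 3 * C + 6 * C * τ) * 8 / ε)).exists_forall_of_atTop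
  refine ⟨max (max N₀ N₁) 2, fun N hN => ?_⟩
  have g1 : N₀ ≤ N := le_trans (le_trans (le_max_left _ _) (le_max_left _ _)) hN
  have g2 : N₁ ≤ N := le_trans (le_trans (le_max_right _ _) (le_max_left _ _)) hN
  have g3 : 2 ≤ N := le_trans (le_max_right _ _) hN
  have g4 := hN₁ N g2
  have g5 := hN₀ N g1
  have hl : 0 < Real.log N := Real.log_pos (by exact_mod_cast g3)
  have kr := key hD h2 C hC hC0 τ ht0 ht1 (fun a b => (F a b).re)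
    (fun a b => (Complex.abs_re_le_norm _).trans (hFb a b)) N (by omega)
  have ki := key hD h2 C hC hC0 τ ht0 ht1 (fun a b => (F a b).im)
    (fun a b => (Complex.abs_im_le_norm _).trans (hFb a b)) N (by omega)
  have r1 : |∑ X ∈ Icc 1 N, 1 / (X : ℝ) ^ 2 * AR t c (fun a b => (F a b).re) (τ ^ 4) X| ≤
      ε / 4 * Real.log N := by
    refine le_trans (le_of_eq ?_) ((Complex.abs_re_le_norm _).trans g5)
    congr 1
    rw [Complex.re_sum]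
    refine sum_congr rfl fun X _ => ?_
    rw [Complex.re_ofReal_mul, AG_re]
  have r2 : |∑ X ∈ Icc 1 N, 1 / (X : ℝ) ^ 2 * AR t c (fun a b => (F a b).im) (τ ^ 4) X| ≤
      ε / 4 * Real.log N := by
    refine le_trans (le_of_eq ?_) ((Complex.abs_im_le_norm _).trans g5)
    congr 1
    rw [Complex.im_sum]
    refine sum_congr rfl fun X _ => ?_
    rw [Complex.im_ofReal_mul, AG_im]
  have n1 : ‖∑ p ∈ SP t c N, F p.1 p.2 / ((max p.1 p.2 : ℕ) : ℂ)‖ ≤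
      |∑ p ∈ SP t c N, (F p.1 p.2).re * (1 / ((max p.1 p.2 : ℕ) : ℝ))| +
      |∑ p ∈ SP t c N, (F p.1 p.2).im * (1 / ((max p.1 p.2 : ℕ) : ℝ))| := by
    refine (Complex.norm_le_abs_re_add_abs_im _).trans (le_of_eq ?_)
    rw [Complex.re_sum, Complex.im_sum]
    congr 1
    · congr 1
      refine sum_congr rfl fun p _ => ?_
      rw [Complex.div_natCast_re, mul_one_div]
    · congr 1
      refine sum_congr rfl fun p _ => ?_
      rw [Complex.div_natCast_im, mul_one_div]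
  rw [div_lt_iff₀ hε] at g4
  rw [dist_zero_right, norm_div, Complex.norm_real, Real.norm_eq_abs, abs_of_pos hl,
    div_lt_iff₀ hl]
  have g8 : 12 * C * τ * Real.log N ≤ ε / 4 * Real.log N :=
    mul_le_mul_of_nonneg_right ht2 hl.le
  nlinarith

end Pool.Agent.W377.EG
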